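import Mathlib

/-! # Static network decomposition (MP_cde131_lc, Q1)

`P` is a reflexive and symmetric relation on `ℕ`, `D x a m` is any notion of distance with
`D x x 0` and `D x a m → P a b → D x b (m + 1)`.  Every finite set `Y` has classes `c` and centres
`x` such that related elements of the same class have the same centre, with at most
`log₂ |Y| + 1` classes and distance at most `log₂ |Y|` to the centre.
-/

set_option autoImplicit false

namespace Pool.Agent.Helper78.Q1

open Classical in
/-- growth of a cluster in `Z` -/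
noncomputable def grow (P : ℕ → ℕ → Prop) (Z : Finset ℕ) (w : ℕ) : ℕ → Finset ℕ
  | 0 => {w}
  | (k + 1) => Z.filter fun b => ∃ a ∈ grow P Z w k, P a b

variable {P : ℕ → ℕ → Prop} {D : ℕ → ℕ → ℕ → Prop}

open Classical in
theorem mem_grow_succ {Z : Finset ℕ} {w k b : ℕ} :
    b ∈ grow P Z w (k + 1) ↔ b ∈ Z ∧ ∃ a ∈ grow P Z w k, P a b := by
  rw [grow, Finset.mem_filter]

theorem grow_sub {Z : Finset ℕ} {w : ℕ} (hw : w ∈ Z) : ∀ k, grow P Z w k ⊆ Z
  | 0 => by
    rw [grow]
    exact Finset.singleton_subset_iff.2 hw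
  | (k + 1) => fun _ ha => (mem_grow_succ.1 ha).1

theorem grow_step (hr : ∀ a, P a a) {Z : Finset ℕ} {w : ℕ} (hw : w ∈ Z) (k : ℕ) :
    grow P Z w k ⊆ grow P Z w (k + 1) := by
  intro a ha
  rw [mem_grow_succ]
  exact ⟨grow_sub hw k ha, a, ha, hr a⟩

theorem self_mem_grow (hr : ∀ a, P a a) {Z : Finset ℕ} {w : ℕ} (hw : w ∈ Z) :
    ∀ k, w ∈ grow P Z w k
  | 0 => by rw [grow]; exact Finset.mem_singleton_self w
  | (k + 1) => grow_step hr hw k (self_mem_grow hr hw k)

theorem grow_dist (h0 : ∀ x, D x x 0) (hs : ∀ x a b m, D x a m → P a b → D x b (m + 1))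
    {Z : Finset ℕ} {w : ℕ} : ∀ k, ∀ a ∈ grow P Z w k, D w a k
  | 0 => by
    intro a ha
    rw [grow, Finset.mem_singleton] at ha
    subst ha
    exact h0 a
  | (k + 1) => by
    intro a ha
    rw [mem_grow_succ] at ha
    obtain ⟨-, b, hb, hP⟩ := ha
    exact hs _ _ _ _ (grow_dist h0 hs k b hb) hP

theorem grow_stop (hr : ∀ a, P a a) {Z : Finset ℕ} {w : ℕ} (hw : w ∈ Z) :
    ∃ k ≤ Nat.log 2 Z.card, (grow P Z w (k + 1)).card ≤ 2 * (grow P Z w k).card := by
  by_contra hcon
  push Not at hcon
  have key : ∀ k ≤ Nat.log 2 Z.card + 1, 2 ^ k ≤ (grow P Z w k).card := by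
    intro k
    induction k with
    | zero =>
      intro _
      exact Finset.card_pos.2 ⟨w, self_mem_grow hr hw 0⟩
    | succ k ih =>
      intro hk
      have h1 := ih (by omega)
      have h2 := hcon k (by omega)
      rw [pow_succ]
      omega
  have h1 := key _ le_rfl
  have h2 : (grow P Z w (Nat.log 2 Z.card + 1)).card ≤ Z.card :=
    Finset.card_le_card (grow_sub hw _)
  have h3 : Z.card < 2 ^ (Nat.log 2 Z.card + 1) := Nat.lt_pow_succ_log_self one_lt_two _
  omega

theorem oneClass (hr : ∀ a, P a a) (hsy : ∀ a b, P a b → P b a) (h0 : ∀ x, D x x 0)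
    (hs : ∀ x a b m, D x a m → P a b → D x b (m + 1))
    (hm : ∀ x a m m', m ≤ m' → D x a m → D x a m') :
    ∀ (n : ℕ) (Z : Finset ℕ), Z.card = n → ∃ (S : Finset ℕ) (x : ℕ → ℕ), S ⊆ Z ∧
      Z.card ≤ 2 * S.card ∧ (∀ a ∈ S, x a ∈ Z ∧ D (x a) a (Nat.log 2 Z.card)) ∧
      (∀ a ∈ S, ∀ b ∈ S, P a b → x a = x b) := by
  classical
  intro n
  induction n using Nat.strong_induction_on with
  | _ n ih =>
    intro Z hZ
    rcases Z.eq_empty_or_nonempty with he | ⟨w, hw⟩
    · subst he
      exact ⟨∅, fun _ => 0, by simp, by simp, by simp, by simp⟩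
    · obtain ⟨k, hk, hcard⟩ := grow_stop hr hw
      have hsub1 := grow_sub (P := P) hw (k + 1)
      have hlt : (Z \ grow P Z w (k + 1)).card < n := by
        rw [← hZ]
        refine Finset.card_lt_card ⟨Finset.sdiff_subset, fun h => ?_⟩
        have := h hw
        rw [Finset.mem_sdiff] at this
        exact this.2 (self_mem_grow hr hw _)
      obtain ⟨S', x', g1, g2, g3, g4⟩ := ih _ hlt _ rfl
      have hdis : Disjoint (grow P Z w k) S' := by
        rw [Finset.disjoint_left]
        intro a ha ha'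
        exact (Finset.mem_sdiff.1 (g1 ha')).2 (grow_step hr hw k ha)
      have hnot : ∀ a ∈ S', a ∉ grow P Z w k := fun a ha ha' =>
        (Finset.disjoint_left.1 hdis) ha' ha
      refine ⟨grow P Z w k ∪ S', fun a => if a ∈ grow P Z w k then w else x' a, ?_, ?_, ?_, ?_⟩
      · exact Finset.union_subset (grow_sub hw k) (g1.trans Finset.sdiff_subset)
      · rw [Finset.card_union_of_disjoint hdis]
        have h1 := Finset.card_sdiff_add_card_eq_card hsub1
        omega
      · intro a ha
        by_cases h : a ∈ grow P Z w k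
        · simp only [if_pos h]
          exact ⟨hw, hm _ _ _ _ hk (grow_dist h0 hs k a h)⟩
        · simp only [if_neg h]
          have ha' : a ∈ S' := by
            rcases Finset.mem_union.1 ha with h' | h'
            · exact absurd h' h
            · exact h'
          obtain ⟨e1, e2⟩ := g3 a ha'
          exact ⟨(Finset.mem_sdiff.1 e1).1, hm _ _ _ _
            (Nat.log_mono_right (Finset.card_le_card Finset.sdiff_subset)) e2⟩
      · intro a ha b hb hab
        by_cases h : a ∈ grow P Z w k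
        · by_cases h' : b ∈ grow P Z w k
          · simp only [if_pos h, if_pos h']
          · exfalso
            have hb' : b ∈ S' := by
              rcases Finset.mem_union.1 hb with h'' | h''
              · exact absurd h'' h'
              · exact h''
            have hb2 := Finset.mem_sdiff.1 (g1 hb')
            refine hb2.2 ?_
            rw [mem_grow_succ]
            exact ⟨hb2.1, a, h, hab⟩
        · have ha' : a ∈ S' := by
            rcases Finset.mem_union.1 ha with h'' | h''
            · exact absurd h'' h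
            · exact h''
          by_cases h' : b ∈ grow P Z w k
          · exfalso
            have ha2 := Finset.mem_sdiff.1 (g1 ha')
            refine ha2.2 ?_
            rw [mem_grow_succ]
            exact ⟨ha2.1, b, h', hsy _ _ hab⟩
          · have hb' : b ∈ S' := by
              rcases Finset.mem_union.1 hb with h'' | h''
              · exact absurd h'' h'
              · exact h''
            simp only [if_neg h, if_neg h']
            exact g4 a ha' b hb' hab

theorem allClasses (hr : ∀ a, P a a) (hsy : ∀ a b, P a b → P b a) (h0 : ∀ x, D x x 0)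
    (hs : ∀ x a b m, D x a m → P a b → D x b (m + 1))
    (hm : ∀ x a m m', m ≤ m' → D x a m → D x a m') :
    ∀ (n : ℕ) (Y : Finset ℕ), Y.card = n → ∃ (c x : ℕ → ℕ),
      (∀ a ∈ Y, c a ≤ Nat.log 2 Y.card ∧ x a ∈ Y ∧ D (x a) a (Nat.log 2 Y.card)) ∧
      (∀ a ∈ Y, ∀ b ∈ Y, P a b → c a = c b → x a = x b) := by
  classical
  intro n
  induction n using Nat.strong_induction_on with
  | _ n ih =>
    intro Y hY
    rcases Y.eq_empty_or_nonempty with he | hne
    · subst he
      exact ⟨fun _ => 0, fun _ => 0, by simp, by simp⟩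
    · obtain ⟨S, x, s1, s2, s3, s4⟩ := oneClass hr hsy h0 hs hm _ Y rfl
      have hc : (Y \ S).card + S.card = Y.card := Finset.card_sdiff_add_card_eq_card s1
      have hpos : 0 < Y.card := Finset.card_pos.2 hne
      obtain ⟨c', x', g1, g2⟩ := ih (Y \ S).card (by omega) _ rfl
      refine ⟨fun a => if a ∈ S then 0 else c' a + 1, fun a => if a ∈ S then x a else x' a,
        ?_, ?_⟩
      · intro a ha
        by_cases h : a ∈ S
        · simp only [if_pos h]
          exact ⟨Nat.zero_le _, (s3 a h).1, (s3 a h).2⟩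
        · simp only [if_neg h]
          have ha' : a ∈ Y \ S := Finset.mem_sdiff.2 ⟨ha, h⟩
          obtain ⟨e1, e2, e3⟩ := g1 a ha'
          have hp' : 0 < (Y \ S).card := Finset.card_pos.2 ⟨a, ha'⟩
          have hlog : Nat.log 2 (Y \ S).card + 1 ≤ Nat.log 2 Y.card := by
            have h2 : Nat.log 2 ((Y \ S).card * 2) = Nat.log 2 (Y \ S).card + 1 :=
              Nat.log_mul_base one_lt_two hp'.ne'
            rw [← h2]
            exact Nat.log_mono_right (by omega)
          exact ⟨by omega, (Finset.mem_sdiff.1 e2).1, hm _ _ _ _ (by omega) e3⟩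
      · intro a ha b hb hab
        by_cases h : a ∈ S
        · by_cases h' : b ∈ S
          · simp only [if_pos h, if_pos h']
            exact fun _ => s4 a h b h' hab
          · simp only [if_pos h, if_neg h']
            intro h2
            omega
        · by_cases h' : b ∈ S
          · simp only [if_neg h, if_pos h']
            intro h2
            omega
          · simp only [if_neg h, if_neg h']
            intro h2
            exact g2 a (Finset.mem_sdiff.2 ⟨ha, h⟩) b (Finset.mem_sdiff.2 ⟨hb, h'⟩) hab (by omega)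

/-- `p = (c, x)` is a network decomposition of the `ρ`-th power of `F` on `{0, ..., τ}` -/
def ND (F : SimpleGraph ℕ) (τ ρ : ℕ) (p : (ℕ → ℕ) × (ℕ → ℕ)) : Prop :=
  (∀ a ≤ τ, p.1 a ≤ Nat.log 2 (τ + 1) ∧ p.2 a ≤ τ ∧
    ∃ q : F.Walk (p.2 a) a, q.length ≤ ρ * Nat.log 2 (τ + 1)) ∧
  (∀ a ≤ τ, ∀ b ≤ τ, (∃ q : F.Walk a b, q.length ≤ ρ) → p.1 a = p.1 b → p.2 a = p.2 b)

theorem exists_ND (F : SimpleGraph ℕ) (τ ρ : ℕ) : ∃ p, ND F τ ρ p := by
  obtain ⟨c, x, h1, h2⟩ := allClasses (P := fun a b => ∃ q : F.Walk a b, q.length ≤ ρ)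
    (D := fun a b m => ∃ q : F.Walk a b, q.length ≤ ρ * m)
    (fun a => ⟨SimpleGraph.Walk.nil, by simp⟩)
    (fun a b ⟨q, hq⟩ => ⟨q.reverse, by simpa using hq⟩)
    (fun a => ⟨SimpleGraph.Walk.nil, by simp⟩)
    (fun y a b m ⟨q, hq⟩ ⟨q', hq'⟩ => ⟨q.append q', by
      rw [SimpleGraph.Walk.length_append, Nat.mul_add, Nat.mul_one]
      omega⟩)
    (fun y a m m' hmm ⟨q, hq⟩ => ⟨q, hq.trans (Nat.mul_le_mul_left _ hmm)⟩)
    (τ + 1) (Finset.Iic τ) (by simp)
  have hcard : (Finset.Iic τ).card = τ + 1 := by simp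
  rw [hcard] at h1
  refine ⟨(c, x), ?_, ?_⟩
  · intro a ha
    obtain ⟨e1, e2, e3⟩ := h1 a (Finset.mem_Iic.2 ha)
    exact ⟨e1, Finset.mem_Iic.1 e2, e3⟩
  · intro a ha b hb hab hc
    exact h2 a (Finset.mem_Iic.2 ha) b (Finset.mem_Iic.2 hb) hab hc

open Classical in
/-- a fixed network decomposition -/
noncomputable def nd (F : SimpleGraph ℕ) (τ ρ : ℕ) : (ℕ → ℕ) × (ℕ → ℕ) :=
  (exists_ND F τ ρ).choose

theorem nd_spec (F : SimpleGraph ℕ) (τ ρ : ℕ) : ND F τ ρ (nd F τ ρ) := (exists_ND F τ ρ).choose_spec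

end Pool.Agent.Helper78.Q1
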