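import Pool.Agent.Helper63.PG.Alg
import Pool.Agent.Helper78.Q1.ND

/-! # The polylogarithmic on-line algorithm: definitions (MP_cde131_lc, Q1)

Everything attached to `v` depends only on `pre G v`.  The first label is the scale and the size of
a ball around `v` which grows slowly; the anchor of `v` is the centre of the cluster of the first
neighbour of `v` in its class, in a fixed network decomposition of the static graph `pre G τ`.
-/

set_option autoImplicit false

namespace Pool.Agent.Helper78.Q1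

open Pool.Agent.Helper63.OC Pool.Agent.Helper24.OCM
open Pool.Agent.Helper63.PG (nr bal hasp fn te tau lab2 kc lay cc TT NOH Lay Gam TauS OneLayer)

/-- the first radius with slow growth -/
noncomputable def r1 (G : SimpleGraph ℕ) (v : ℕ) : ℕ :=
  sInf {r | Nat.log 2 (bal G v (r + 2)).ncard = Nat.log 2 (bal G v r).ncard}

/-- the first label -/
noncomputable def lab1 (G : SimpleGraph ℕ) (v : ℕ) : ℕ × ℕ :=
  (r1 G v, Nat.log 2 (bal G v (r1 G v)).ncard)

/-- the edges inside the classes of the first label -/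
noncomputable def H1 (G : SimpleGraph ℕ) : SimpleGraph ℕ := mono G (lab1 G)

/-- the time stamp of `v` -/
noncomputable def tt (G : SimpleGraph ℕ) (v : ℕ) : ℕ := tau (H1 G) v

/-- the class of the first neighbour in the static network decomposition -/
noncomputable def cls (G : SimpleGraph ℕ) (v : ℕ) : ℕ :=
  (nd (pre G (tt G v)) (tt G v) (2 * r1 G v)).1 (fn (H1 G) v)

/-- the anchor: the centre of the cluster of the first neighbour -/
noncomputable def anc (G : SimpleGraph ℕ) (v : ℕ) : ℕ :=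
  (nd (pre G (tt G v)) (tt G v) (2 * r1 G v)).2 (fn (H1 G) v)

/-- labels -/
abbrev Lab : Type := (ℕ × ℕ) × ℕ × ℕ × ℕ × ℕ

open Classical in
/-- the label of `v` -/
noncomputable def lab (k : ℕ) (G : SimpleGraph ℕ) (v : ℕ) : Lab :=
  (lab1 G v, lab2 (H1 G) v, if hasp (H1 G) v then
    (cls G v, lay G (anc G v) (tt G v) v, cc k G (anc G v) (tt G v) v) else (0, 0, 0))

/-- the edges inside the label classes -/
noncomputable def G3 (k : ℕ) (G : SimpleGraph ℕ) : SimpleGraph ℕ := mono G (lab k G)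

/-- the graph `Γ` -/
noncomputable def Gm (k : ℕ) (G : SimpleGraph ℕ) : SimpleGraph ℕ where
  Adj u v := (G3 k G).Adj u v ∧ ∃ w, w ∈ TT k G (anc G u) (tt G u) u ∧
    w ∈ TT k G (anc G v) (tt G v) v
  symm := ⟨fun _ _ ⟨h, w, h1, h2⟩ => ⟨h.symm, w, h2, h1⟩⟩
  loopless := ⟨fun _ h => (G3 k G).loopless.irrefl _ h.1⟩

/-- the colour of `v`; the first argument is the clique number -/
noncomputable def col (k : ℕ) : ℕ → SimpleGraph ℕ → ℕ → List (Lab × List (ℕ × ℕ))
  | 0, _, _ => []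
  | 1, _, _ => []
  | (w + 2), G, v =>
    (lab k G v, fcol k (mono (G3 k G) (col k (w + 1) (Gm k G))) v) ::
      col k (w + 1) (Gm k G) v

/-- what is known about the static neighbourhood of `v` -/
structure Vs (k : ℕ) (G : SimpleGraph ℕ) (v : ℕ) : Prop where
  ancle : anc G v ≤ tt G v
  ttlt : tt G v < v
  layle : lay G (anc G v) (tt G v) v ≤ 2 * r1 G v * Nat.log 2 (tt G v + 1)
  laymin : ∀ w r, w ≤ tt G v → G.Adj v w → nr G (tt G v) (anc G v) w r →
    lay G (anc G v) (tt G v) v ≤ r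
  ne : (TT k G (anc G v) (tt G v) v).Nonempty

/-- the vertices with given data -/
def UU (k : ℕ) (G : SimpleGraph ℕ) (x τ i c : ℕ) : Set ℕ :=
  {v | hasp (H1 G) v ∧ anc G v = x ∧ tt G v = τ ∧ lay G x τ v = i ∧ cc k G x τ v = c}

/-- the possible labels -/
def LabF (k n : ℕ) : Finset Lab :=
  (Finset.range (2 * Nat.log 2 n + 1) ×ˢ Finset.range (Nat.log 2 n + 1)) ×ˢ
    Finset.range (Nat.log 2 n + 2) ×ˢ Finset.range (Nat.log 2 n + 1) ×ˢ
    Finset.range (4 * Nat.log 2 n ^ 2 + 1) ×ˢ Finset.range (k + 1)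

open Classical in
/-- the possible colours -/
noncomputable def ColF (k n : ℕ) : ℕ → Finset (List (Lab × List (ℕ × ℕ)))
  | 0 => {[]}
  | (m + 1) => ((LabF k n ×ˢ F2 n (k - 1)) ×ˢ ColF k n m).image fun p => p.1 :: p.2

/-! ### balls -/

theorem bal_mono (G : SimpleGraph ℕ) (v : ℕ) {r s : ℕ} (h : r ≤ s) : bal G v r ⊆ bal G v s :=
  fun _ hu => Pool.Agent.Helper63.PG.nr_mono hu h

theorem ncard_Iic (v : ℕ) : (Set.Iic v).ncard = v + 1 := by
  have h5 : (Set.Iic v) = ((Finset.Iic v : Finset ℕ) : Set ℕ) := by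
    rw [Finset.coe_Iic]
  rw [h5, Set.ncard_coe_finset, Nat.card_Iic]

theorem bal_card_le (G : SimpleGraph ℕ) (v r : ℕ) : (bal G v r).ncard ≤ v + 1 := by
  rw [← ncard_Iic v]
  exact Set.ncard_le_ncard (Pool.Agent.Helper63.PG.bal_sub G v r) (Set.finite_Iic v)

theorem bal_card_pos (G : SimpleGraph ℕ) (v r : ℕ) : 0 < (bal G v r).ncard := by
  rw [Set.ncard_pos (Pool.Agent.Helper63.PG.bal_fin G v r)]
  exact ⟨v, Pool.Agent.Helper63.PG.self_mem_bal G v r⟩

theorem exists_slow (G : SimpleGraph ℕ) (v : ℕ) : ∃ i ≤ Nat.log 2 (v + 1),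
    Nat.log 2 (bal G v (2 * i + 2)).ncard = Nat.log 2 (bal G v (2 * i)).ncard := by
  by_contra hcon
  push Not at hcon
  have key : ∀ i ≤ Nat.log 2 (v + 1) + 1, i ≤ Nat.log 2 (bal G v (2 * i)).ncard := by
    intro i
    induction i with
    | zero => intro _; exact Nat.zero_le _
    | succ i ih =>
      intro hi
      have h1 := ih (by omega)
      have h2 := hcon i (by omega)
      have h3 : Nat.log 2 (bal G v (2 * i)).ncard ≤ Nat.log 2 (bal G v (2 * i + 2)).ncard :=
        Nat.log_mono_right (Set.ncard_le_ncard (bal_mono G v (by omega))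
          (Pool.Agent.Helper63.PG.bal_fin G v _))
      have h4 : 2 * (i + 1) = 2 * i + 2 := by ring
      rw [h4]
      omega
  have h1 := key _ le_rfl
  have h2 : Nat.log 2 (bal G v (2 * (Nat.log 2 (v + 1) + 1))).ncard ≤ Nat.log 2 (v + 1) :=
    Nat.log_mono_right (bal_card_le G v _)
  omega

theorem r1_spec (G : SimpleGraph ℕ) (v : ℕ) :
    Nat.log 2 (bal G v (r1 G v + 2)).ncard = Nat.log 2 (bal G v (r1 G v)).ncard := by
  obtain ⟨i, -, h⟩ := exists_slow G v
  exact Nat.sInf_mem (s := {r | Nat.log 2 (bal G v (r + 2)).ncard =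
    Nat.log 2 (bal G v r).ncard}) ⟨2 * i, h⟩

theorem r1_le (G : SimpleGraph ℕ) (v : ℕ) : r1 G v ≤ 2 * Nat.log 2 (v + 1) := by
  obtain ⟨i, hi, h⟩ := exists_slow G v
  have : r1 G v ≤ 2 * i := Nat.sInf_le h
  omega

/-- **Key lemma**: the balls around two static vertices of the class near `v` meet. -/
theorem balls_meet {G : SimpleGraph ℕ} {v w w' τ : ℕ} (hw : w ≤ τ) (hw' : w' ≤ τ) (hτ : τ ≤ v)
    (hl : lab1 G w = lab1 G v) (hl' : lab1 G w' = lab1 G v) (h2 : nr G v v w 2)
    (h2' : nr G v v w' 2) : nr G τ w w' (2 * r1 G v) := by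
  have hv : (bal G v (r1 G v + 2)).ncard < 2 ^ (Nat.log 2 (bal G v (r1 G v)).ncard + 1) := by
    rw [← r1_spec]
    exact Nat.lt_pow_succ_log_self one_lt_two _
  by_contra hcon
  have hgen : ∀ w, w ≤ τ → lab1 G w = lab1 G v → nr G v v w 2 →
      {y | nr G τ w y (r1 G v)} ⊆ bal G v (r1 G v + 2) ∧
      {y | nr G τ w y (r1 G v)}.Finite ∧
      2 ^ Nat.log 2 (bal G v (r1 G v)).ncard ≤ {y | nr G τ w y (r1 G v)}.ncard := by
    intro w hw hl h2
    unfold lab1 at hl
    rw [Prod.mk.injEq] at hl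
    obtain ⟨hr, hj⟩ := hl
    have hfin : {y | nr G τ w y (r1 G v)}.Finite :=
      (Set.finite_Iic τ).subset fun y hy => Pool.Agent.Helper63.PG.nr_le hy hw
    refine ⟨?_, hfin, ?_⟩
    · intro y hy
      have h3 := Pool.Agent.Helper63.PG.nr_trans h2 (Pool.Agent.Helper63.PG.nr_time hy hτ)
      show nr G v v y (r1 G v + 2)
      rwa [Nat.add_comm] at h3
    · rw [← hj, hr]
      refine (Nat.pow_log_le_self 2 (bal_card_pos G w _).ne').trans ?_
      exact Set.ncard_le_ncard (fun y hy => Pool.Agent.Helper63.PG.nr_time hy hw) hfin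
  obtain ⟨a1, a2, a3⟩ := hgen w hw hl h2
  obtain ⟨b1, b2, b3⟩ := hgen w' hw' hl' h2'
  have hdis : Disjoint {y | nr G τ w y (r1 G v)} {y | nr G τ w' y (r1 G v)} := by
    rw [Set.disjoint_left]
    intro y hy hy'
    apply hcon
    have := Pool.Agent.Helper63.PG.nr_trans hy (Pool.Agent.Helper63.PG.nr_symm hy')
    rwa [← two_mul] at this
  have hun : ({y | nr G τ w y (r1 G v)} ∪ {y | nr G τ w' y (r1 G v)}).ncard ≤
      (bal G v (r1 G v + 2)).ncard :=
    Set.ncard_le_ncard (Set.union_subset a1 b1) (Pool.Agent.Helper63.PG.bal_fin G v _)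
  rw [Set.ncard_union_eq hdis a2 b2] at hun
  rw [pow_succ] at hv
  omega

end Pool.Agent.Helper78.Q1
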