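import Pool.Agent.Helper78.Q1.Alg

/-! # The clique number of Gamma (MP_cde131_lc, Q1) -/

set_option autoImplicit false

namespace Pool.Agent.Helper78.Q1

open Pool.Agent.Helper63.OC Pool.Agent.Helper24.OCM
open Pool.Agent.Helper63.PG (nr nr_refl nr_symm nr_trans nr_mono nr_time nr_adj nr_pre nr_le bal
  bal_pre bal_fin bal_sub hasp fn te tau lab2 kc lay cc TT NOH Lay Gam Cm TauS OneLayer)


theorem hGCL {k w : ℕ} {G : SimpleGraph ℕ} (hF : G.CliqueFree (w + 3)) (hO : OneLayer)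
    (hD : ∀ u v, (G3 k G).Adj u v →
      hasp (H1 G) u ∧ hasp (H1 G) v ∧ anc G u = anc G v ∧ tt G u = tt G v ∧
      lay G (anc G u) (tt G u) u = lay G (anc G v) (tt G v) v ∧
      cc k G (anc G u) (tt G u) u = cc k G (anc G v) (tt G v) v)
    (hL : ∀ x τ i c, Lay G {w | w ≤ τ ∧ nr G τ x w i}
      {w | w ≤ τ ∧ nr G τ x w (i + 1) ∧ ¬ nr G τ x w i ∧ kc k G τ w = c}
      (UU k G x τ (i + 1) c))
    (hR : ∀ x τ c, (∀ u ∈ UU k G x τ 0 c, G.Adj x u) ∧
      (∀ u ∈ UU k G x τ 0 c, ∀ v ∈ UU k G x τ 0 c, lab k G u = lab k G v →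
        ((Gm k G).Adj u v ↔ G.Adj u v)) ∧
      (∀ i, ∀ u ∈ UU k G x τ (i + 1) c, ∀ v ∈ UU k G x τ (i + 1) c,
        lab k G u = lab k G v →
        ((Gm k G).Adj u v ↔
          (Gam G {w | w ≤ τ ∧ nr G τ x w (i + 1) ∧ ¬ nr G τ x w i ∧ kc k G τ w = c}
            (UU k G x τ (i + 1) c)).Adj u v))) : (Gm k G).CliqueFree (w + 2) := by
  intro Q hQ
  have hcl : ∀ a ∈ Q, ∀ b ∈ Q, a ≠ b → (Gm k G).Adj a b := fun a ha b hb hab =>
    hQ.isClique ha hb hab
  have hcard : 1 < Q.card := by rw [hQ.card_eq]; omega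
  obtain ⟨u, hu, u', hu', huu⟩ := Finset.one_lt_card.mp hcard
  have hdat : ∀ v ∈ Q,
      v ∈ UU k G (anc G u) (tt G u) (lay G (anc G u) (tt G u) u)
        (cc k G (anc G u) (tt G u) u) ∧ lab k G v = lab k G u := by
    intro v hv
    by_cases hvu : u = v
    · subst hvu
      exact ⟨⟨(hD _ _ (hcl _ hu _ hu' huu).1).1, rfl, rfl, rfl, rfl⟩, rfl⟩
    · have hs := (hcl _ hu _ hv hvu).1
      obtain ⟨b1, b2, b3, b4, b5, b6⟩ := hD _ _ hs
      refine ⟨⟨b2, b3.symm, b4.symm, ?_, ?_⟩, hs.2.symm⟩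
      · rw [b5, b3, b4]
      · rw [b6, b3, b4]
  have key : ∃ t, ∀ v ∈ Q, G.Adj t v := by
    rcases hi : lay G (anc G u) (tt G u) u with _ | i
    · rw [hi] at hdat
      exact ⟨anc G u, fun v hv => (hR _ _ _).1 v (hdat v hv).1⟩
    · rw [hi] at hdat
      obtain ⟨t, -, ht⟩ := (hO _ _ _ _ (hL (anc G u) (tt G u) i
        (cc k G (anc G u) (tt G u) u))).2.1 Q ⟨u, hu⟩ (fun v hv => (hdat v hv).1)
        (fun a ha b hb hab => ((hR _ _ _).2.2 i _ (hdat a ha).1 _ (hdat b hb).1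
          ((hdat a ha).2.trans (hdat b hb).2.symm)).mp (hcl a ha b hb hab))
      exact ⟨t, ht⟩
  obtain ⟨t, ht⟩ := key
  classical
  have htQ : t ∉ Q := fun h => G.loopless.irrefl _ (ht t h)
  refine hF (insert t Q) ⟨?_, ?_⟩
  · intro a ha b hb hab
    rw [Finset.mem_coe, Finset.mem_insert] at ha hb
    rcases ha with ha | ha
    · rcases hb with hb | hb
      · exact absurd (ha.trans hb.symm) hab
      · rw [ha]
        exact ht b hb
    · rcases hb with hb | hb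
      · rw [hb]
        exact (ht a ha).symm
      · exact (hcl a ha b hb hab).1.1
  · rw [Finset.card_insert_of_notMem htQ, hQ.card_eq]

end Pool.Agent.Helper78.Q1
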