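import Pool.Agent.Helper78.Q1.Alg

/-! # The graph outside Gamma is Meyniel (MP_cde131_lc, Q1) -/

set_option autoImplicit false

namespace Pool.Agent.Helper78.Q1

open Pool.Agent.Helper63.OC Pool.Agent.Helper24.OCM
open Pool.Agent.Helper63.PG (nr nr_refl nr_symm nr_trans nr_mono nr_time nr_adj nr_pre nr_le bal
  bal_pre bal_fin bal_sub hasp fn te tau lab2 kc lay cc TT NOH Lay Gam Cm TauS OneLayer)


theorem hGME {k : ℕ} {G : SimpleGraph ℕ} {α : Type} (c0 : ℕ → α)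
    (hp : ∀ u v, (Gm k G).Adj u v → c0 u ≠ c0 v) (hO : OneLayer)
    (hD : ∀ u v, (G3 k G).Adj u v →
      hasp (H1 G) u ∧ hasp (H1 G) v ∧ anc G u = anc G v ∧ tt G u = tt G v ∧
      lay G (anc G u) (tt G u) u = lay G (anc G v) (tt G v) v ∧
      cc k G (anc G u) (tt G u) u = cc k G (anc G v) (tt G v) v)
    (hL : ∀ x τ i c, Lay G {w | w ≤ τ ∧ nr G τ x w i}
      {w | w ≤ τ ∧ nr G τ x w (i + 1) ∧ ¬ nr G τ x w i ∧ kc k G τ w = c}
      (UU k G x τ (i + 1) c))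
    (hR : ∀ x τ c, (∀ u ∈ UU k G x τ 0 c, G.Adj x u) ∧
      (∀ u ∈ UU k G x τ 0 c, ∀ v ∈ UU k G x τ 0 c, lab k G u = lab k G v →
        ((Gm k G).Adj u v ↔ G.Adj u v)) ∧
      (∀ i, ∀ u ∈ UU k G x τ (i + 1) c, ∀ v ∈ UU k G x τ (i + 1) c,
        lab k G u = lab k G v →
        ((Gm k G).Adj u v ↔
          (Gam G {w | w ≤ τ ∧ nr G τ x w (i + 1) ∧ ¬ nr G τ x w i ∧ kc k G τ w = c}
            (UU k G x τ (i + 1) c)).Adj u v))) :
    IsMeyniel (mono (G3 k G) c0) := by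
  intro L hL1 h5 f hf hadj
  have hne : NeZero L := ⟨by rintro rfl; exact absurd hL1 (by decide)⟩
  have h01 : ∀ i : ZMod L, (G3 k G).Adj (f i) (f (i + 1)) := fun i => (hadj i).1
  obtain ⟨x, hx⟩ : ∃ x, anc G (f 0) = x := ⟨_, rfl⟩
  obtain ⟨τ, hτ⟩ : ∃ τ, tt G (f 0) = τ := ⟨_, rfl⟩
  obtain ⟨j, hj⟩ : ∃ j, lay G x τ (f 0) = j := ⟨_, rfl⟩
  obtain ⟨c, hcc⟩ : ∃ c, cc k G x τ (f 0) = c := ⟨_, rfl⟩
  have hnat : ∀ n : ℕ, f (n : ZMod L) ∈ UU k G x τ j c ∧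
      lab k G (f (n : ZMod L)) = lab k G (f 0) ∧ c0 (f (n : ZMod L)) = c0 (f 0) := by
    intro n
    induction n with
    | zero =>
      have h1 := hD _ _ (h01 0)
      exact ⟨by rw [Nat.cast_zero]; exact ⟨h1.1, hx, hτ, hj, hcc⟩, by simp, by simp⟩
    | succ n ih =>
      obtain ⟨⟨i1, i2, i3, i4, i5⟩, i6, i7⟩ := ih
      have h1 := hD _ _ (h01 (n : ZMod L))
      obtain ⟨d1, d2, d3, d4, d5, d6⟩ := h1
      have h2 := (h01 (n : ZMod L)).2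
      have h3 := (hadj (n : ZMod L)).2
      push_cast
      rw [← d3, ← d4, i2, i3] at d5 d6
      refine ⟨⟨d2, by rw [← d3, i2], by rw [← d4, i3], by rw [← d5, i4], by rw [← d6, i5]⟩, ?_, ?_⟩
      · rw [← h2, i6]
      · rw [← h3, i7]
  have hall : ∀ i : ZMod L, f i ∈ UU k G x τ j c ∧ lab k G (f i) = lab k G (f 0) ∧
      c0 (f i) = c0 (f 0) := by
    intro i
    have := hnat i.val
    rwa [ZMod.natCast_zmod_val] at this
  rcases j with _ | i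
  · exfalso
    have h1 := ((hR x τ c).2.1 (f 0) (hall 0).1 (f (0 + 1)) (hall (0 + 1)).1
      (hall (0 + 1)).2.1.symm).2 (h01 0).1
    exact hp _ _ h1 (hall (0 + 1)).2.2.symm
  · obtain ⟨a, b, a', b', ⟨h1, h2, h3⟩, ⟨h4, h5, h6⟩, h7⟩ :=
      (hO G _ _ _ (hL x τ i c)).2.2
        {v | v ∈ UU k G x τ (i + 1) c ∧ lab k G v = lab k G (f 0) ∧ c0 v = c0 (f 0)}
        (fun v hv => hv.1) (by
          rintro u ⟨hu1, hu2, hu3⟩ v ⟨hv1, hv2, hv3⟩ huv hcm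
          have h8 := ((hR x τ c).2.2 i u hu1 v hv1 (hu2.trans hv2.symm)).2 ⟨hu1, hv1, huv, hcm⟩
          exact hp _ _ h8 (hu3.trans hv3.symm)) L hL1 h5 f hf hall (fun i => (h01 i).1)
    exact ⟨a, b, a', b',
      ⟨⟨⟨h1, (hall a).2.1.trans (hall b).2.1.symm⟩, (hall a).2.2.trans (hall b).2.2.symm⟩, h2, h3⟩,
      ⟨⟨⟨h4, (hall a').2.1.trans (hall b').2.1.symm⟩,
        (hall a').2.2.trans (hall b').2.2.symm⟩, h5, h6⟩, h7⟩

end Pool.Agent.Helper78.Q1
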