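import Pool.Agent.Helper78.Q1.Alg

/-! # The layers around the anchor (MP_cde131_lc, Q1) -/

set_option autoImplicit false

namespace Pool.Agent.Helper78.Q1

open Pool.Agent.Helper63.OC Pool.Agent.Helper24.OCM
open Pool.Agent.Helper63.PG (nr nr_refl nr_symm nr_trans nr_mono nr_time nr_adj nr_pre nr_le bal
  bal_pre bal_fin bal_sub hasp fn te tau lab2 kc lay cc TT NOH Lay Gam Cm TauS OneLayer)


theorem nr_of_mem {G : SimpleGraph ℕ} {τ x a i y : ℕ} (p : (pre G τ).Walk x a)
    (hp : p.length ≤ i) (hy : y ∈ p.support) : nr G τ x y i :=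
  ⟨p.takeUntil y hy, (p.length_takeUntil_le_length hy).trans hp⟩

theorem kc_proper {k : ℕ} {G : SimpleGraph ℕ} (hc : G.Colorable k) {τ s t : ℕ}
    (h : (pre G τ).Adj s t) : kc k G τ s ≠ kc k G τ t := by
  have hle : pre G τ ≤ G := fun a b hab => hab.2.2
  have h1 : (pre G τ).Colorable k := hc.mono_left hle
  unfold kc
  rw [dif_pos h1]
  intro h2
  exact h1.some.valid h (Fin.ext h2)

theorem hLAY {k : ℕ} {G : SimpleGraph ℕ} (hc : G.Colorable k) (hN : NOH G)
    (hV : ∀ v, hasp (H1 G) v → Vs k G v) (x τ i c : ℕ) :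
    Lay G {w | w ≤ τ ∧ nr G τ x w i}
      {w | w ≤ τ ∧ nr G τ x w (i + 1) ∧ ¬ nr G τ x w i ∧ kc k G τ w = c}
      (UU k G x τ (i + 1) c) where
  noh := hN
  conn := by
    rintro a ⟨ha, ⟨p, hp⟩⟩ b ⟨hb, ⟨q, hq⟩⟩
    refine ⟨(p.reverse.append q).length, (p.reverse.append q).getVert,
      SimpleGraph.Walk.getVert_zero _, SimpleGraph.Walk.getVert_length _, ?_, ?_⟩
    · intro j _
      have hx : x ≤ τ := nr_le (nr_symm (G := G) ⟨p, hp⟩) ha
      have hm := (p.reverse.append q).getVert_mem_support j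
      rw [SimpleGraph.Walk.mem_support_append_iff] at hm
      have h1 : nr G τ x ((p.reverse.append q).getVert j) i := by
        rcases hm with hm | hm
        · rw [SimpleGraph.Walk.support_reverse, List.mem_reverse] at hm
          exact nr_of_mem p hp hm
        · exact nr_of_mem q hq hm
      exact ⟨nr_le h1 hx, h1⟩
    · intro j hj
      exact ((p.reverse.append q).adj_getVert_succ hj).2.2
  stab := by
    rintro s ⟨hs1, -, -, hs2⟩ t ⟨ht1, -, -, ht2⟩ hst
    exact kc_proper hc (τ := τ) (show (pre G τ).Adj s t from ⟨hs1, ht1, hst⟩) (hs2.trans ht2.symm)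
  tR := by
    rintro t ⟨ht1, ⟨p, hp⟩, ht2, -⟩
    have hlen : p.length = i + 1 := by
      by_contra hne
      exact ht2 ⟨p, by omega⟩
    have hadj := p.adj_getVert_succ (i := i) (by omega)
    have he : p.getVert (i + 1) = t := by
      rw [← hlen]
      exact p.getVert_length
    rw [he] at hadj
    refine ⟨p.getVert i, ⟨hadj.1, ⟨p.take i, ?_⟩⟩, hadj.2.2.symm⟩
    rw [SimpleGraph.Walk.take_length]
    exact min_le_left _ _
  anti := by
    rintro u ⟨hu, rfl, rfl, hl, -⟩ r ⟨hr1, hr2⟩ hadj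
    have h1 := (hV u hu).laymin r i hr1 hadj hr2
    omega
  sees := by
    rintro u ⟨hu, rfl, rfl, hl, hcc⟩
    obtain ⟨w, hw1, hw2, hw3, hw4⟩ := (hV u hu).ne
    refine ⟨w, ⟨hw1, ?_, ?_, hw4.trans hcc⟩, hw2.symm⟩
    · rw [← hl]
      exact hw3
    · intro hn
      have h1 := (hV u hu).laymin w i hw1 hw2 hn
      omega

end Pool.Agent.Helper78.Q1
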