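import Pool.Agent.Helper78.Q1.VSP
import Pool.Agent.Helper64.PG.M_LMM

/-! # The number of colours (MP_cde131_lc, Q1) -/

set_option autoImplicit false

namespace Pool.Agent.Helper78.Q1

open Pool.Agent.Helper63.OC Pool.Agent.Helper24.OCM
open Pool.Agent.Helper63.PG (nr nr_refl nr_symm nr_trans nr_mono nr_time nr_adj nr_pre nr_le bal
  bal_pre bal_fin bal_sub hasp fn te tau lab2 kc lay cc TT NOH Lay Gam Cm TauS OneLayer)
open Pool.Agent.Helper64.PG (cc_le)

theorem lab_in_gen {k n : ℕ} {G : SimpleGraph ℕ} {v : ℕ} (hv : v < n) (hT : TauS (H1 G))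
    (h3 : hasp (H1 G) v → te (H1 G) v ≤ Nat.log 2 v)
    (h4 : hasp (H1 G) v → Vs k G v) : lab k G v ∈ LabF k n := by
  have hlog1 : Nat.log 2 (v + 1) ≤ Nat.log 2 n := Nat.log_mono_right hv
  have hcj : Nat.log 2 (bal G v (r1 G v)).ncard ≤ Nat.log 2 n :=
    Nat.log_mono_right ((bal_card_le G v _).trans hv)
  have hr := r1_le G v
  have hlv : Nat.log 2 v ≤ Nat.log 2 n := Nat.log_mono_right hv.le
  have hl2 : lab2 (H1 G) v < Nat.log 2 n + 2 := by
    unfold lab2
    split_ifs with h
    · have := h3 h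
      omega
    · omega
  unfold LabF
  rw [Finset.mem_product, Finset.mem_product, Finset.mem_product, Finset.mem_product,
    Finset.mem_product]
  refine ⟨⟨?_, ?_⟩, ?_, ?_, ?_, ?_⟩
  · exact Finset.mem_range.2 (by
      show r1 G v < _
      omega)
  · exact Finset.mem_range.2 (by
      show Nat.log 2 (bal G v (r1 G v)).ncard < _
      omega)
  · exact Finset.mem_range.2 hl2
  · rw [Finset.mem_range]
    by_cases h : hasp (H1 G) v
    · have h5 : (lab k G v).2.2.1 = cls G v := by
        unfold lab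
        rw [if_pos h]
      rw [h5]
      have h6 := (anc_spec (hT.1 v h).2.1 : cls G v ≤ Nat.log 2 (tt G v + 1) ∧ _).1
      have h7 : Nat.log 2 (tt G v + 1) ≤ Nat.log 2 n :=
        Nat.log_mono_right (by have := (h4 h).ttlt; omega)
      omega
    · have h5 : (lab k G v).2.2.1 = 0 := by
        unfold lab
        rw [if_neg h]
      rw [h5]
      omega
  · rw [Finset.mem_range]
    by_cases h : hasp (H1 G) v
    · have h5 : (lab k G v).2.2.2.1 = lay G (anc G v) (tt G v) v := by
        unfold lab
        rw [if_pos h]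
      rw [h5]
      have h6 := (h4 h).layle
      have h7 : Nat.log 2 (tt G v + 1) ≤ Nat.log 2 n :=
        Nat.log_mono_right (by have := (h4 h).ttlt; omega)
      have h8 : 2 * r1 G v * Nat.log 2 (tt G v + 1) ≤ 2 * (2 * Nat.log 2 n) * Nat.log 2 n :=
        Nat.mul_le_mul (Nat.mul_le_mul_left _ (by omega)) h7
      have h9 : 2 * (2 * Nat.log 2 n) * Nat.log 2 n = 4 * Nat.log 2 n ^ 2 := by ring
      omega
    · have h5 : (lab k G v).2.2.2.1 = 0 := by
        unfold lab
        rw [if_neg h]
      rw [h5]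
      omega
  · rw [Finset.mem_range]
    by_cases h : hasp (H1 G) v
    · have h5 : (lab k G v).2.2.2.2 = cc k G (anc G v) (tt G v) v := by
        unfold lab
        rw [if_pos h]
      rw [h5]
      have := cc_le k G (anc G v) (tt G v) v
      omega
    · have h5 : (lab k G v).2.2.2.2 = 0 := by
        unfold lab
        rw [if_neg h]
      rw [h5]
      omega

open Classical in
theorem col_mem (k n : ℕ)
    (hl : ∀ (G : SimpleGraph ℕ) (v : ℕ), v < n → lab k G v ∈ LabF k n) :
    ∀ (w : ℕ) (G : SimpleGraph ℕ) (v : ℕ), v < n → col k w G v ∈ ColF k n (w - 1)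
  | 0, _, _, _ => by
    show _ ∈ ColF k n 0
    rw [col, ColF]
    exact Finset.mem_singleton_self _
  | 1, _, _, _ => by
    show _ ∈ ColF k n 0
    rw [col, ColF]
    exact Finset.mem_singleton_self _
  | (w + 2), G, v, hv => by
    show _ ∈ ColF k n (w + 1)
    rw [col, ColF]
    have ih := col_mem k n hl (w + 1) (Gm k G) v hv
    have h1 := fcol_mem n v hv k (mono (G3 k G) (col k (w + 1) (Gm k G)))
    refine Finset.mem_image.2 ⟨((lab k G v,
      fcol k (mono (G3 k G) (col k (w + 1) (Gm k G))) v), col k (w + 1) (Gm k G) v),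
      ?_, rfl⟩
    rw [Finset.mem_product, Finset.mem_product]
    exact ⟨⟨hl G v hv, h1⟩, ih⟩

open Classical in
theorem card_ColF (k n : ℕ) : ∀ m, (ColF k n m).card ≤
      ((2 * Nat.log 2 n + 1) * (Nat.log 2 n + 1) * (Nat.log 2 n + 2) * (Nat.log 2 n + 1) *
        (4 * Nat.log 2 n ^ 2 + 1) * (k + 1) * (2 * (Nat.log 2 n + 1)) ^ (k - 1)) ^ m := by
  have hL : (LabF k n).card =
      (2 * Nat.log 2 n + 1) * (Nat.log 2 n + 1) * (Nat.log 2 n + 2) * (Nat.log 2 n + 1) *
        (4 * Nat.log 2 n ^ 2 + 1) * (k + 1) := by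
    unfold LabF
    rw [Finset.card_product, Finset.card_product, Finset.card_product, Finset.card_product,
      Finset.card_product, Finset.card_range, Finset.card_range, Finset.card_range,
      Finset.card_range, Finset.card_range]
    ring
  have hF : (F2 n (k - 1)).card ≤ (2 * (Nat.log 2 n + 1)) ^ (k - 1) := by
    rw [← card_T2]
    exact card_F2 n (k - 1)
  intro m
  induction m with
  | zero =>
    rw [ColF, Finset.card_singleton, pow_zero]
  | succ m ih =>
    rw [ColF]
    refine Finset.card_image_le.trans ?_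
    rw [Finset.card_product, Finset.card_product, pow_succ, mul_comm]
    apply Nat.mul_le_mul ih
    rw [hL]
    exact Nat.mul_le_mul_left _ hF

end Pool.Agent.Helper78.Q1
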