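import Pool.Agent.Helper78.Q1.VSP
import Pool.Agent.Helper74.PG.M_CLO3
import Pool.Agent.Helper64.PG.M_LO2

/-! # The colouring is on-line (MP_cde131_lc, Q1) -/

set_option autoImplicit false

namespace Pool.Agent.Helper78.Q1

open Pool.Agent.Helper63.OC Pool.Agent.Helper24.OCM
open Pool.Agent.Helper63.PG (nr nr_refl nr_symm nr_trans nr_mono nr_time nr_adj nr_pre nr_le bal
  bal_pre bal_fin bal_sub hasp fn te tau lab2 kc lay cc TT NOH Lay Gam Cm TauS OneLayer)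
open Pool.Agent.Helper74.PG (mono_pre_gen kc_pre adj_pre' lay_pre cc_pre TT_pre)

theorem r1_pre {G : SimpleGraph ℕ} {s v : ℕ} (h : v ≤ s) : r1 (pre G s) v = r1 G v := by
  unfold r1
  simp only [bal_pre h]

theorem lab1_pre {G : SimpleGraph ℕ} {s v : ℕ} (h : v ≤ s) : lab1 (pre G s) v = lab1 G v := by
  unfold lab1
  rw [r1_pre h, bal_pre h]

theorem H1_pre (G : SimpleGraph ℕ) (s : ℕ) : H1 (pre G s) = pre (H1 G) s :=
  mono_pre_gen G _ _ fun _ hv => lab1_pre hv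

theorem tt_pre (G : SimpleGraph ℕ) {s v : ℕ} (h : v ≤ s) : tt (pre G s) v = tt G v := by
  unfold tt
  rw [H1_pre, (Pool.Agent.Helper64.PG.hLO2 (H := H1 G) (s := s)).2.2.2.1 v h]

theorem fn_pre (G : SimpleGraph ℕ) {s v : ℕ} (h : v ≤ s) : fn (H1 (pre G s)) v = fn (H1 G) v := by
  rw [H1_pre, (Pool.Agent.Helper64.PG.hLO2 (H := H1 G) (s := s)).2.1 v h]

theorem cls_pre (G : SimpleGraph ℕ) {s v : ℕ} (h : v ≤ s) (hτ : tt G v ≤ s) :
    cls (pre G s) v = cls G v := by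
  unfold cls
  rw [fn_pre G h, tt_pre G h, r1_pre h, pre_pre hτ]

theorem anc_pre (G : SimpleGraph ℕ) {s v : ℕ} (h : v ≤ s) (hτ : tt G v ≤ s) :
    anc (pre G s) v = anc G v := by
  unfold anc
  rw [fn_pre G h, tt_pre G h, r1_pre h, pre_pre hτ]

theorem col_local_gen (k : ℕ)
    (hV : ∀ (G : SimpleGraph ℕ) v, hasp (H1 G) v → Vs k G v)
    (hD : ∀ (G : SimpleGraph ℕ) u v, (G3 k G).Adj u v →
      hasp (H1 G) u ∧ hasp (H1 G) v) :
    ∀ (w : ℕ) (G : SimpleGraph ℕ) (s t : ℕ), t ≤ s → col k w (pre G s) t = col k w G t := by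
  have hl2 : ∀ (H : SimpleGraph ℕ) (s : ℕ), (∀ v ≤ s, (hasp (pre H s) v ↔ hasp H v)) ∧
      (∀ v ≤ s, tau (pre H s) v = tau H v) ∧ (∀ v ≤ s, lab2 (pre H s) v = lab2 H v) := by
    intro H s
    obtain ⟨h1, -, -, h4, h5⟩ := Pool.Agent.Helper64.PG.hLO2 (H := H) (s := s)
    exact ⟨h1, h4, h5⟩
  have hlab : ∀ (G : SimpleGraph ℕ) (s v : ℕ), v ≤ s → lab k (pre G s) v = lab k G v := by
    intro G s v hv
    unfold lab
    rw [lab1_pre hv, H1_pre, (hl2 _ s).2.2 v hv]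
    by_cases hp : hasp (H1 G) v
    · have hp' : hasp (pre (H1 G) s) v := ((hl2 _ s).1 v hv).2 hp
      have hτ : tt G v ≤ s := (hV G v hp).ttlt.le.trans hv
      rw [if_pos hp, if_pos hp', cls_pre G hv hτ, anc_pre G hv hτ, tt_pre G hv, lay_pre hτ hv,
        cc_pre hτ hv]
    · have hp' : ¬ hasp (pre (H1 G) s) v := fun h => hp (((hl2 _ s).1 v hv).1 h)
      rw [if_neg hp, if_neg hp']
  have hG3 : ∀ (G : SimpleGraph ℕ) (s : ℕ), G3 k (pre G s) = pre (G3 k G) s := fun G s =>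
    mono_pre_gen G _ _ (hlab G s)
  have hTT : ∀ (G : SimpleGraph ℕ) (s v : ℕ), v ≤ s → hasp (H1 G) v →
      TT k (pre G s) (anc (pre G s) v) (tt (pre G s) v) v =
      TT k G (anc G v) (tt G v) v := by
    intro G s v hv hp
    have hτ : tt G v ≤ s := (hV G v hp).ttlt.le.trans hv
    rw [anc_pre G hv hτ, tt_pre G hv, TT_pre hτ hv]
  have hGm : ∀ (G : SimpleGraph ℕ) (s : ℕ), Gm k (pre G s) = pre (Gm k G) s := by
    intro G s
    ext u v
    show ((G3 k (pre G s)).Adj u v ∧ ∃ w,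
        w ∈ TT k (pre G s) (anc (pre G s) u) (tt (pre G s) u) u ∧
        w ∈ TT k (pre G s) (anc (pre G s) v) (tt (pre G s) v) v) ↔
      u ≤ s ∧ v ≤ s ∧ ((G3 k G).Adj u v ∧ ∃ w, w ∈ TT k G (anc G u) (tt G u) u ∧
        w ∈ TT k G (anc G v) (tt G v) v)
    rw [hG3]
    constructor
    · rintro ⟨⟨h1, h2, h3⟩, w, h4, h5⟩
      obtain ⟨hu, hv⟩ := hD G u v h3
      rw [hTT G s u h1 hu] at h4
      rw [hTT G s v h2 hv] at h5
      exact ⟨h1, h2, h3, w, h4, h5⟩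
    · rintro ⟨h1, h2, h3, w, h4, h5⟩
      obtain ⟨hu, hv⟩ := hD G u v h3
      refine ⟨⟨h1, h2, h3⟩, w, ?_, ?_⟩
      · rw [hTT G s u h1 hu]
        exact h4
      · rw [hTT G s v h2 hv]
        exact h5
  intro w
  induction w with
  | zero =>
    intro G s t _
    rfl
  | succ w ih =>
    rcases w with _ | w
    · intro G s t _
      rfl
    · intro G s t ht
      rw [col, col, hGm, hG3, hlab G s t ht, ih _ s t ht,
        mono_pre_gen (G3 k G) (col k (w + 1) (Gm k G)) (col k (w + 1) (pre (Gm k G) s))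
          (fun v hv => ih _ s v hv), fcol_pre k _ s t ht]

end Pool.Agent.Helper78.Q1
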