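import Mathlib

/-! # The numerical estimate (MP_cde131_lc, Q1) -/

set_option autoImplicit false

namespace Pool.Agent.Helper78.Q1

theorem base_le (k L : ℕ) :
    (2 * L + 1) * (L + 1) * (L + 2) * (L + 1) * (4 * L ^ 2 + 1) * (k + 1) *
      (2 * (L + 1)) ^ (k - 1) ≤ (16 * (k + 1) * 2 ^ (k - 1)) * (L + 1) ^ (k - 1 + 6) := by
  have h1 : 4 * L ^ 2 + 1 ≤ 4 * (L + 1) ^ 2 := by
    have h0 : (L + 1) ^ 2 = L ^ 2 + 2 * L + 1 := by ring
    omega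
  calc (2 * L + 1) * (L + 1) * (L + 2) * (L + 1) * (4 * L ^ 2 + 1) * (k + 1) *
      (2 * (L + 1)) ^ (k - 1)
      ≤ (2 * (L + 1)) * (L + 1) * (2 * (L + 1)) * (L + 1) * (4 * (L + 1) ^ 2) * (k + 1) *
        (2 * (L + 1)) ^ (k - 1) := by
        gcongr <;> omega
    _ = (16 * (k + 1) * 2 ^ (k - 1)) * (L + 1) ^ (k - 1 + 6) := by
        rw [mul_pow, pow_add]
        ring

/-- the bound on the number of colours -/
theorem hNUM (k : ℕ) : ∃ N0 : ℕ, ∀ n : ℕ, N0 ≤ n →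
    ((((2 * Nat.log 2 n + 1) * (Nat.log 2 n + 1) * (Nat.log 2 n + 2) * (Nat.log 2 n + 1) *
        (4 * Nat.log 2 n ^ 2 + 1) * (k + 1) * (2 * (Nat.log 2 n + 1)) ^ (k - 1)) ^ (k - 1) : ℕ) : ℝ)
      < Real.log n ^ ((k - 1 + 7) * (k - 1) + 1) := by
  have htend : Filter.Tendsto (fun n : ℕ => Real.log n) Filter.atTop Filter.atTop :=
    Real.tendsto_log_atTop.comp tendsto_natCast_atTop_atTop
  set C : ℝ := 16 * (k + 1) * 2 ^ (k - 1) * 2 ^ (k - 1 + 6) with hC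
  obtain ⟨N0, hN0⟩ := Filter.eventually_atTop.1
    ((htend.eventually (Filter.eventually_ge_atTop C)).and
      (htend.eventually (Filter.eventually_ge_atTop 2)))
  refine ⟨N0 + 2, fun n hn => ?_⟩
  obtain ⟨hx1, hx2⟩ := hN0 n (by omega)
  set x := Real.log n with hx
  set L := Nat.log 2 n with hL
  have hl2 : (L : ℝ) * Real.log 2 ≤ x := by
    rw [hx, ← Real.log_pow]
    refine Real.log_le_log (by positivity) ?_
    exact_mod_cast Nat.pow_log_le_self 2 (by omega : n ≠ 0)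
  have hg1 := Real.log_two_gt_d9
  have hl0 : (0 : ℝ) ≤ L := Nat.cast_nonneg L
  have hM : (L : ℝ) + 1 ≤ 2 * x := by nlinarith
  have h1 : (((2 * L + 1) * (L + 1) * (L + 2) * (L + 1) * (4 * L ^ 2 + 1) * (k + 1) *
      (2 * (L + 1)) ^ (k - 1) : ℕ) : ℝ) ≤ x ^ (k - 1 + 7) := by
    calc (((2 * L + 1) * (L + 1) * (L + 2) * (L + 1) * (4 * L ^ 2 + 1) * (k + 1) *
      (2 * (L + 1)) ^ (k - 1) : ℕ) : ℝ)
        ≤ (((16 * (k + 1) * 2 ^ (k - 1)) * (L + 1) ^ (k - 1 + 6) : ℕ) : ℝ) :=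
          Nat.cast_le.2 (base_le k L)
      _ = (16 * (k + 1) * 2 ^ (k - 1)) * ((L : ℝ) + 1) ^ (k - 1 + 6) := by push_cast; ring
      _ ≤ (16 * (k + 1) * 2 ^ (k - 1)) * (2 * x) ^ (k - 1 + 6) := by gcongr
      _ = C * x ^ (k - 1 + 6) := by rw [hC, mul_pow]; ring
      _ ≤ x * x ^ (k - 1 + 6) := by gcongr
      _ = x ^ (k - 1 + 7) := by rw [← pow_succ']
  rw [Nat.cast_pow]
  calc _ ≤ (x ^ (k - 1 + 7)) ^ (k - 1) := pow_le_pow_left₀ (Nat.cast_nonneg _) h1 _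
    _ = x ^ ((k - 1 + 7) * (k - 1)) := by rw [← pow_mul]
    _ < x ^ ((k - 1 + 7) * (k - 1) + 1) := pow_lt_pow_right₀ (by linarith) (Nat.lt_succ_self _)

end Pool.Agent.Helper78.Q1
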