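import Pool.Agent.Helper78.Q1.Alg

/-! # The on-line colouring is proper (MP_cde131_lc, Q1) -/

set_option autoImplicit false

namespace Pool.Agent.Helper78.Q1

open Pool.Agent.Helper63.OC Pool.Agent.Helper24.OCM
open Pool.Agent.Helper63.PG (nr nr_refl nr_symm nr_trans nr_mono nr_time nr_adj nr_pre nr_le bal
  bal_pre bal_fin bal_sub hasp fn te tau lab2 kc lay cc TT NOH Lay Gam Cm TauS OneLayer)


theorem hPRO (k : ℕ)
    (hstep : ∀ (G : SimpleGraph ℕ) (w : ℕ), G.Colorable k → NOH G → G.CliqueFree (w + 3) →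
      NOH (Gm k G) ∧ (Gm k G).CliqueFree (w + 2))
    (hM : ∀ (G : SimpleGraph ℕ) (c0 : ℕ → List (Lab × List (ℕ × ℕ))), G.Colorable k → NOH G →
      (∀ u v, (Gm k G).Adj u v → c0 u ≠ c0 v) → IsMeyniel (mono (G3 k G) c0)) :
    ∀ (w : ℕ) (G : SimpleGraph ℕ), G.Colorable k → NOH G → G.CliqueFree (w + 1) →
      ∀ a b, G.Adj a b → col k w G a ≠ col k w G b
  | 0, G, _, _, hG, a, b, _ => by
    exfalso
    exact hG {a} ⟨by simp, by simp⟩
  | 1, G, _, _, hG, a, b, hab => by
    exfalso
    refine hG {a, b} ⟨?_, ?_⟩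
    · intro x hx y hy hxy
      simp only [Finset.coe_insert, Finset.coe_singleton, Set.mem_insert_iff,
        Set.mem_singleton_iff] at hx hy
      rcases hx with rfl | rfl <;> rcases hy with rfl | rfl
      · exact absurd rfl hxy
      · exact hab
      · exact hab.symm
      · exact absurd rfl hxy
    · exact Finset.card_pair hab.ne
  | (w + 2), G, hc, hN, hG, a, b, hab => by
    intro heq
    rw [col, col, List.cons.injEq, Prod.mk.injEq] at heq
    obtain ⟨⟨h1, h2⟩, h3⟩ := heq
    obtain ⟨hN', hF'⟩ := hstep G w hc hN hG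
    have hle3 : G3 k G ≤ G := fun u v huv => huv.1
    have hle : Gm k G ≤ G := fun u v huv => hle3 huv.1
    have hc' : (Gm k G).Colorable k := hc.mono_left hle
    have hp := hPRO k hstep hM (w + 1) (Gm k G) hc' hN' hF'
    have hMey := hM G (col k (w + 1) (Gm k G)) hc hN hp
    have hleM : mono (G3 k G) (col k (w + 1) (Gm k G)) ≤ G :=
      fun u v huv => hle3 huv.1
    have hfree : (mono (G3 k G) (col k (w + 1) (Gm k G))).CliqueFree (k + 1) :=
      (hc.mono_left hleM).cliqueFree (by omega)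
    exact fcol_proper k _ hMey hfree a b ⟨⟨hab, h1⟩, h3⟩ h2

end Pool.Agent.Helper78.Q1
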