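import Pool.Agent.Helper78.Q1.Alg

/-! # Adjacent vertices with the same label have the same anchor (MP_cde131_lc, Q1) -/

set_option autoImplicit false

namespace Pool.Agent.Helper78.Q1

open Pool.Agent.Helper63.OC Pool.Agent.Helper24.OCM
open Pool.Agent.Helper63.PG (nr nr_refl nr_symm nr_trans nr_mono nr_time nr_adj bal hasp fn te tau
  lab2 kc lay cc TT NOH Lay Gam TauS OneLayer)

theorem sam_aux {k : ℕ} {G : SimpleGraph ℕ} (hT : TauS (H1 G)) {u v : ℕ}
    (huv : u < v) (hadj : (G3 k G).Adj u v) :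
    hasp (H1 G) u ∧ hasp (H1 G) v ∧ anc G u = anc G v ∧ tt G u = tt G v ∧
    lay G (anc G u) (tt G u) u = lay G (anc G v) (tt G v) v ∧
    cc k G (anc G u) (tt G u) u = cc k G (anc G v) (tt G v) v := by
  obtain ⟨hG, hlab⟩ := hadj
  have h1 : lab1 G u = lab1 G v := congrArg (fun p : Lab => p.1) hlab
  have h2 : lab2 (H1 G) u = lab2 (H1 G) v := congrArg (fun p : Lab => p.2.1) hlab
  have h3 := congrArg (fun p : Lab => p.2.2) hlab
  obtain ⟨hu, hv, ht⟩ := hT.2 u v huv ⟨hG, h1⟩ h2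
  simp only [lab, if_pos hu, if_pos hv, Prod.mk.injEq] at h3
  obtain ⟨h4, h5, h6⟩ := h3
  have ht' : tt G u = tt G v := ht
  have hr : r1 G u = r1 G v := congrArg (fun p : ℕ × ℕ => p.1) h1
  obtain ⟨⟨hult, huadj⟩, hule, hutlt⟩ := hT.1 u hu
  obtain ⟨⟨hvlt, hvadj⟩, hvle, hvtlt⟩ := hT.1 v hv
  have hule' : fn (H1 G) u ≤ tt G v := by
    rw [← ht']
    exact hule
  have hvle' : fn (H1 G) v ≤ tt G v := hvle
  have hvtlt' : tt G v < v := hvtlt
  -- the two first neighbours are at distance at most `2 * r`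
  have e1 : nr G v v (fn (H1 G) v) 2 :=
    nr_mono (nr_adj hvadj.1 le_rfl hvlt.le) (by omega)
  have e2 : nr G v v (fn (H1 G) u) 2 :=
    nr_trans (r := 1) (s := 1) (nr_adj hG.symm le_rfl huv.le)
      (nr_adj huadj.1 huv.le (hult.trans huv).le)
  have hmeet : nr G (tt G v) (fn (H1 G) u) (fn (H1 G) v) (2 * r1 G v) :=
    balls_meet hule' hvle' hvtlt'.le (huadj.2.symm.trans h1) hvadj.2.symm e2 e1
  have hnd := (nd_spec (pre G (tt G v)) (tt G v) (2 * r1 G v)).2 _ hule' _ hvle' hmeet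
  have ha : anc G u = anc G v := by
    have hc : cls G u = (nd (pre G (tt G v)) (tt G v) (2 * r1 G v)).1 (fn (H1 G) u) := by
      unfold cls
      rw [ht', hr]
    have hx : anc G u = (nd (pre G (tt G v)) (tt G v) (2 * r1 G v)).2 (fn (H1 G) u) := by
      unfold anc
      rw [ht', hr]
    rw [hx]
    exact hnd (hc.symm.trans h4)
  exact ⟨hu, hv, ha, ht', h5, h6⟩

theorem hSAM {k : ℕ} {G : SimpleGraph ℕ} (hT : TauS (H1 G)) {u v : ℕ}
    (hadj : (G3 k G).Adj u v) :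
    hasp (H1 G) u ∧ hasp (H1 G) v ∧ anc G u = anc G v ∧ tt G u = tt G v ∧
    lay G (anc G u) (tt G u) u = lay G (anc G v) (tt G v) v ∧
    cc k G (anc G u) (tt G u) u = cc k G (anc G v) (tt G v) v := by
  rcases Nat.lt_trichotomy u v with h | h | h
  · exact sam_aux hT h hadj
  · subst h
    exact absurd hadj ((G3 k G).loopless.irrefl _)
  · obtain ⟨a, b, c, d, e, f⟩ := sam_aux hT h hadj.symm
    exact ⟨b, a, c.symm, d.symm, e.symm, f.symm⟩

end Pool.Agent.Helper78.Q1
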