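import Pool.Agent.Helper63.PG.Asm2
import Pool.Agent.Helper78.Q1.SAM
import Pool.Agent.Helper78.Q1.LAY
import Pool.Agent.Helper78.Q1.GMR
import Pool.Agent.Helper78.Q1.GNO
import Pool.Agent.Helper78.Q1.GCL
import Pool.Agent.Helper78.Q1.GME
import Pool.Agent.Helper78.Q1.PRO
import Pool.Agent.Helper78.Q1.LOC
import Pool.Agent.Helper78.Q1.LMM
import Pool.Agent.Helper78.Q1.NUM

/-! # Polylogarithmic on-line colouring of graphs without odd holes: assembly (MP_cde131_lc, Q1) -/

set_option autoImplicit false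

namespace Pool.Agent.Helper78.Q1

open Pool.Agent.Helper63.OC Pool.Agent.Helper24.OCM
open Pool.Agent.Helper63.PG (nr nr_refl nr_symm nr_trans nr_mono nr_time nr_adj nr_pre nr_le bal
  bal_pre bal_fin bal_sub hasp fn te tau lab2 kc lay cc TT NOH Lay Gam Cm TauS OneLayer tauS
  oneLayer liftG_colorable)

theorem vs (k : ℕ) (G : SimpleGraph ℕ) (v : ℕ) (h : hasp (H1 G) v) : Vs k G v :=
  hVSP (tauS _) h

theorem same (k : ℕ) (G : SimpleGraph ℕ) (u v : ℕ) (hadj : (G3 k G).Adj u v) :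
    hasp (H1 G) u ∧ hasp (H1 G) v ∧ anc G u = anc G v ∧ tt G u = tt G v ∧
    lay G (anc G u) (tt G u) u = lay G (anc G v) (tt G v) v ∧
    cc k G (anc G u) (tt G u) u = cc k G (anc G v) (tt G v) v :=
  hSAM (tauS _) hadj

theorem lab_in (k : ℕ) {n : ℕ} (G : SimpleGraph ℕ) {v : ℕ} (hv : v < n) : lab k G v ∈ LabF k n :=
  lab_in_gen hv (tauS _) (fun h => (Pool.Agent.Helper8.PG.hTAU h).2.2.2.2.1) (fun h => vs k G v h)

theorem col_local (k : ℕ) (w : ℕ) (G : SimpleGraph ℕ) (s t : ℕ) (h : t ≤ s) :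
    col k w (pre G s) t = col k w G t :=
  col_local_gen k (fun G v hv => vs k G v hv)
    (fun G u v huv => ⟨(same k G u v huv).1, (same k G u v huv).2.1⟩) w G s t h

theorem proper (k w : ℕ) (G : SimpleGraph ℕ) (hc : G.Colorable k) (hN : NOH G)
    (hF : G.CliqueFree (w + 1)) (a b : ℕ) (hab : G.Adj a b) :
    col k w G a ≠ col k w G b := by
  have hLay : ∀ (G : SimpleGraph ℕ), G.Colorable k → NOH G →
      ∀ x τ i c, Lay G {w | w ≤ τ ∧ nr G τ x w i}
        {w | w ≤ τ ∧ nr G τ x w (i + 1) ∧ ¬ nr G τ x w i ∧ kc k G τ w = c}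
        (UU k G x τ (i + 1) c) :=
    fun G hc hN x τ i c => hLAY hc hN (fun v hv => vs k G v hv) x τ i c
  refine hPRO k ?_ ?_ w G hc hN hF a b hab
  · intro G w hc hN hF
    exact ⟨hGNO hN oneLayer (same k G) (hLay G hc hN) (hGMR (fun v hv => vs k G v hv)),
      hGCL hF oneLayer (same k G) (hLay G hc hN) (hGMR (fun v hv => vs k G v hv))⟩
  · intro G c0 hc hN hp
    exact hGME c0 hp oneLayer (same k G) (hLay G hc hN) (hGMR (fun v hv => vs k G v hv))

/-- the on-line algorithm -/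
noncomputable def algo (k : ℕ) (m : ℕ) (H : SimpleGraph (Fin m)) : ℕ :=
  Encodable.encode (col k k (liftG H) (m - 1))

theorem algo_eq {n k : ℕ} (G : SimpleGraph (Fin n)) (i : Fin n) :
    algo k (i.val + 1) (SimpleGraph.comap (Fin.castLE (Nat.succ_le_of_lt i.isLt)) G) =
      Encodable.encode (col k k (liftG G) i.val) := by
  unfold algo
  rw [liftG_comap G i.val i.isLt]
  congr 1
  exact col_local k k _ _ _ le_rfl

/-- the number of colours -/
def bnd (k n : ℕ) : ℕ :=
  ((2 * Nat.log 2 n + 1) * (Nat.log 2 n + 1) * (Nat.log 2 n + 2) * (Nat.log 2 n + 1) *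
    (4 * Nat.log 2 n ^ 2 + 1) * (k + 1) * (2 * (Nat.log 2 n + 1)) ^ (k - 1)) ^ (k - 1)

theorem main (k n : ℕ) (G : SimpleGraph (Fin n)) (hn : 1 ≤ n) (hG : G.Colorable k)
    (hN : NOH (liftG G)) :
      (∀ i j : Fin n, G.Adj i j →
        algo k (i.val + 1) (SimpleGraph.comap (Fin.castLE (Nat.succ_le_of_lt i.isLt)) G) ≠
        algo k (j.val + 1) (SimpleGraph.comap (Fin.castLE (Nat.succ_le_of_lt j.isLt)) G)) ∧
      (Finset.univ.image (fun i : Fin n =>
        algo k (i.val + 1) (SimpleGraph.comap (Fin.castLE (Nat.succ_le_of_lt i.isLt)) G))).card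
        ≤ bnd k n := by
  have hk : 1 ≤ k := by
    rcases Nat.eq_zero_or_pos k with h | h
    · subst h
      obtain ⟨c⟩ := hG
      exact (c ⟨0, hn⟩).elim0
    · exact h
  have hc := liftG_colorable G hk hG
  have hF := liftG_free G hk hG
  constructor
  · intro i j hij
    rw [algo_eq, algo_eq]
    intro h
    have h' := Encodable.encode_injective h
    exact proper k k _ hc hN hF i.val j.val ⟨i.isLt, j.isLt, hij⟩ h'
  · classical
    have h3 := col_mem k n (fun G v hv => lab_in k G hv)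
    have h4 := card_ColF k n
    have hsub : (Finset.univ.image (fun i : Fin n =>
        algo k (i.val + 1)
          (SimpleGraph.comap (Fin.castLE (Nat.succ_le_of_lt i.isLt)) G))) ⊆
        (ColF k n (k - 1)).image Encodable.encode := by
      intro x hx
      rw [Finset.mem_image] at hx
      obtain ⟨i, -, rfl⟩ := hx
      rw [algo_eq]
      exact Finset.mem_image_of_mem _ (h3 k _ i.val i.isLt)
    exact (Finset.card_le_card hsub).trans (Finset.card_image_le.trans (h4 (k - 1)))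

/-- the polylogarithmic bound for graphs without odd holes -/
theorem main_log (k : ℕ) : ∃ N0 : ℕ, ∀ n : ℕ, N0 ≤ n → ∀ G : SimpleGraph (Fin n),
    G.Colorable k → NOH (liftG G) →
      (∀ i j : Fin n, G.Adj i j →
        algo k (i.val + 1) (SimpleGraph.comap (Fin.castLE (Nat.succ_le_of_lt i.isLt)) G) ≠
        algo k (j.val + 1) (SimpleGraph.comap (Fin.castLE (Nat.succ_le_of_lt j.isLt)) G)) ∧
      (((Finset.univ.image (fun i : Fin n =>
        algo k (i.val + 1)
          (SimpleGraph.comap (Fin.castLE (Nat.succ_le_of_lt i.isLt)) G))).card : ℝ)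
        < Real.log n ^ ((k - 1 + 7) * (k - 1) + 1)) := by
  obtain ⟨N0, hN0⟩ := hNUM k
  refine ⟨max N0 1, fun n hn G hG hN => ?_⟩
  obtain ⟨h1, h2⟩ := main k n G (le_trans (le_max_right _ _) hn) hG hN
  exact ⟨h1, lt_of_le_of_lt (by exact_mod_cast h2) (hN0 n (le_trans (le_max_left _ _) hn))⟩

end Pool.Agent.Helper78.Q1
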