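import Pool.Agent.Helper78.Q1.Asm

/-! # An explicit bound for all n (MP_cde131_lc, Q1 and Q2) -/

set_option autoImplicit false

namespace Pool.Agent.Helper78.Q1

theorem bnd_le (k n : ℕ) (hn : 2 ≤ n) :
    (bnd k n : ℝ) ≤ (((k : ℝ) + 1) * (6 * Real.log n) ^ (k - 1 + 6)) ^ (k - 1) := by
  have hL1 : 1 ≤ Nat.log 2 n := Nat.log_pos one_lt_two hn
  have hbase := base_le k (Nat.log 2 n)
  unfold bnd
  set x := Real.log n with hx
  set L := Nat.log 2 n with hL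
  have hl2 : (L : ℝ) * Real.log 2 ≤ x := by
    rw [hx, ← Real.log_pow]
    refine Real.log_le_log (by positivity) ?_
    exact_mod_cast Nat.pow_log_le_self 2 (by omega : n ≠ 0)
  have hg1 := Real.log_two_gt_d9
  have hl0 : (1 : ℝ) ≤ L := by exact_mod_cast hL1
  have hM : (L : ℝ) + 1 ≤ 3 * x := by nlinarith
  have hx0 : 0 ≤ x := Real.log_natCast_nonneg n
  rw [Nat.cast_pow]
  refine pow_le_pow_left₀ (Nat.cast_nonneg _) ?_ _
  calc (((2 * L + 1) * (L + 1) * (L + 2) * (L + 1) * (4 * L ^ 2 + 1) * (k + 1) *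
      (2 * (L + 1)) ^ (k - 1) : ℕ) : ℝ)
      ≤ (((16 * (k + 1) * 2 ^ (k - 1)) * (L + 1) ^ (k - 1 + 6) : ℕ) : ℝ) :=
        Nat.cast_le.2 hbase
    _ = (16 * (k + 1) * 2 ^ (k - 1)) * ((L : ℝ) + 1) ^ (k - 1 + 6) := by push_cast; ring
    _ ≤ (16 * (k + 1) * 2 ^ (k - 1)) * (3 * x) ^ (k - 1 + 6) := by gcongr
    _ ≤ (((k : ℝ) + 1) * 2 ^ (k - 1 + 6)) * (3 * x) ^ (k - 1 + 6) := by
        refine mul_le_mul_of_nonneg_right ?_ (by positivity)
        have h5 : (0 : ℝ) ≤ ((k : ℝ) + 1) * 2 ^ (k - 1) := by positivity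
        rw [pow_add]
        nlinarith
    _ = ((k : ℝ) + 1) * (6 * x) ^ (k - 1 + 6) := by
        rw [mul_assoc, ← mul_pow, ← mul_assoc]
        norm_num

end Pool.Agent.Helper78.Q1
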