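import Pool.Agent.Helper78.Q1.Alg

/-! # The static neighbourhood of a vertex (MP_cde131_lc, Q1) -/

set_option autoImplicit false

namespace Pool.Agent.Helper78.Q1

open Pool.Agent.Helper63.OC Pool.Agent.Helper24.OCM
open Pool.Agent.Helper63.PG (nr nr_refl nr_symm nr_trans nr_mono nr_time nr_adj bal hasp fn te tau
  lab2 kc lay cc TT NOH Lay Gam TauS OneLayer)

/-- the anchor is near to the first neighbour -/
theorem anc_spec {G : SimpleGraph ℕ} {v : ℕ} (hle : fn (H1 G) v ≤ tt G v) :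
    cls G v ≤ Nat.log 2 (tt G v + 1) ∧ anc G v ≤ tt G v ∧
    nr G (tt G v) (anc G v) (fn (H1 G) v) (2 * r1 G v * Nat.log 2 (tt G v + 1)) :=
  (nd_spec (pre G (tt G v)) (tt G v) (2 * r1 G v)).1 _ hle

theorem hVSP {k : ℕ} {G : SimpleGraph ℕ} (hT : TauS (H1 G)) {v : ℕ}
    (h : hasp (H1 G) v) : Vs k G v := by
  obtain ⟨⟨hlt, hadj⟩, hle, htlt⟩ := hT.1 v h
  obtain ⟨hG, hlab⟩ := hadj
  obtain ⟨-, hwle, hnr⟩ := anc_spec (G := G) (v := v) hle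
  have hmem := Nat.sInf_mem (s := {r | ∃ w, w ≤ tt G v ∧ G.Adj v w ∧
    nr G (tt G v) (anc G v) w r}) ⟨_, _, hle, hG, hnr⟩
  obtain ⟨w', h1, h2, h3⟩ := hmem
  have hmem2 := Nat.sInf_mem (s := {c | ∃ w, w ≤ tt G v ∧ G.Adj v w ∧
    nr G (tt G v) (anc G v) w (lay G (anc G v) (tt G v) v) ∧ kc k G (tt G v) w = c})
    ⟨_, w', h1, h2, h3, rfl⟩
  obtain ⟨w2, g1, g2, g3, g4⟩ := hmem2
  refine ⟨hwle, htlt, ?_, ?_, ⟨w2, g1, g2, g3, g4⟩⟩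
  · exact Nat.sInf_le ⟨_, hle, hG, hnr⟩
  · intro w r hw1 hw2 hw3
    exact Nat.sInf_le ⟨w, hw1, hw2, hw3⟩

end Pool.Agent.Helper78.Q1
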